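import Pool.Agent.H.Enflo.C

namespace Pool.Agent.Results.MP_91e127_an.Main

open Filter Topology Set

variable {X Y : Type} [NormedAddCommGroup X] [NormedSpace ℝ X] [NormedAddCommGroup Y]
  [NormedSpace ℝ Y]

/-- `(f, y)` is a nuclear representation of `T`. -/
def Rep (T : X →L[ℝ] Y) (f : ℕ → X →L[ℝ] ℝ) (y : ℕ → Y) : Prop :=
  (Summable fun n => ‖f n‖ * ‖y n‖) ∧ ∀ x, HasSum (fun n => f n x • y n) (T x)

/-- The nuclear norm. -/
noncomputable def nn (T : X →L[ℝ] Y) : ℝ :=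
  sInf {r | ∃ f y, Rep T f y ∧ r = ∑' n, ‖f n‖ * ‖y n‖}

open Pool.Agent.H.Enflo

theorem nn0 (T : X →L[ℝ] Y) : 0 ≤ nn T :=
  Real.sInf_nonneg (by rintro _ ⟨f, y, -, rfl⟩; exact tsum_nonneg fun n => by positivity)

theorem nnle {T : X →L[ℝ] Y} {f y} (h : Rep T f y) : nn T ≤ ∑' n, ‖f n‖ * ‖y n‖ :=
  csInf_le ⟨0, by rintro _ ⟨f, y, -, rfl⟩; exact tsum_nonneg fun n => by positivity⟩ ⟨f, y, h, rfl⟩

theorem lenn {T : X →L[ℝ] Y} (h : ∃ f y, Rep T f y) {r : ℝ}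
    (k : ∀ f y, Rep T f y → r ≤ ∑' n, ‖f n‖ * ‖y n‖) : r ≤ nn T := by
  obtain ⟨f, y, h⟩ := h
  exact le_csInf ⟨_, f, y, h, rfl⟩ (by rintro _ ⟨f, y, h, rfl⟩; exact k f y h)

theorem radd {S T : X →L[ℝ] Y} {f y g z} (h : Rep S f y) (k : Rep T g z) : ∃ F w,
    Rep (S + T) F w ∧ ∑' n, ‖F n‖ * ‖w n‖ = ∑' n, ‖f n‖ * ‖y n‖ + ∑' n, ‖g n‖ * ‖z n‖ := by
  obtain ⟨F, F0, F1⟩ : ∃ F : ℕ → (X →L[ℝ] ℝ) × Y, (∀ n, F (2 * n) = (f n, y n)) ∧
      ∀ n, F (2 * n + 1) = (g n, z n) :=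
    ⟨fun n => if n % 2 = 0 then (f (n / 2), y (n / 2)) else (g (n / 2), z (n / 2)),
      fun n => by simp, fun n => by
        dsimp only
        rw [if_neg (by omega), show (2 * n + 1) / 2 = n by omega]⟩
  have a : HasSum (fun n => ‖(F n).1‖ * ‖(F n).2‖) _ :=
    HasSum.even_add_odd (by simpa only [F0] using h.1.hasSum) (by simpa only [F1] using k.1.hasSum)
  refine ⟨fun n => (F n).1, fun n => (F n).2, ⟨a.summable, fun x => ?_⟩, a.tsum_eq⟩
  rw [_root_.add_apply]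
  exact HasSum.even_add_odd (by simpa only [F0] using h.2 x) (by simpa only [F1] using k.2 x)

theorem rsm {T : X →L[ℝ] Y} {f y} (h : Rep T f y) (c : ℝ) : Rep (c • T) (fun n => c • f n) y ∧
    ∑' n, ‖c • f n‖ * ‖y n‖ = |c| * ∑' n, ‖f n‖ * ‖y n‖ := by
  simp only [Rep, norm_smul, mul_assoc, tsum_mul_left, Real.norm_eq_abs, and_true]
  exact ⟨h.1.mul_left _, fun x => by simpa [mul_smul] using (h.2 x).const_smul c⟩

theorem rone (g : X →L[ℝ] ℝ) (w : Y) : ∃ f y, Rep (g.smulRight w) f y ∧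
    ∑' n, ‖f n‖ * ‖y n‖ = ‖g‖ * ‖w‖ := by
  have a : HasSum (fun n : ℕ => ‖g‖ * ‖if n = 0 then w else 0‖) (‖g‖ * ‖w‖) :=
    hasSum_single 0 fun n hn => by simp [hn]
  exact ⟨fun _ => g, fun n => if n = 0 then w else 0,
    ⟨a.summable, fun x => hasSum_single 0 fun n hn => by simp [hn]⟩, a.tsum_eq⟩

theorem nadd (S T : X →L[ℝ] Y) (hS : ∃ f y, Rep S f y) (hT : ∃ f y, Rep T f y) :
    nn (S + T) ≤ nn S + nn T := by
  rw [← sub_le_iff_le_add]
  refine lenn hS fun f y h => ?_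
  rw [sub_le_comm]
  refine lenn hT fun g z k => ?_
  obtain ⟨F, w, a, b⟩ := radd h k
  linarith [nnle a]

theorem nsm (c : ℝ) (T : X →L[ℝ] Y) (hT : ∃ f y, Rep T f y) : nn (c • T) ≤ |c| * nn T := by
  by_cases h : c = 0
  · obtain ⟨f, y, k⟩ := hT
    simpa [h] using (nnle (rsm k c).1).trans_eq (rsm k c).2
  · rw [← inv_mul_le_iff₀ (abs_pos.2 h)]
    refine lenn hT fun f y k => ?_
    rw [inv_mul_le_iff₀ (abs_pos.2 h)]
    exact (nnle (rsm k c).1).trans_eq (rsm k c).2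

theorem bil (Φ : (X →L[ℝ] Y) →ₗ[ℝ] ℝ) (h : ∀ T, (∃ f y, Rep T f y) → |Φ T| ≤ nn T) :
    ∃ B : Y →ₗ[ℝ] (X →L[ℝ] ℝ) →ₗ[ℝ] ℝ, (∀ w g, |B w g| ≤ ‖g‖ * ‖w‖) ∧
    ∀ T f y, Rep T f y → HasSum (fun n => B (y n) (f n)) (Φ T) := by
  let B : Y →ₗ[ℝ] (X →L[ℝ] ℝ) →ₗ[ℝ] ℝ := LinearMap.mk₂ ℝ (fun w g => Φ (g.smulRight w))
    (fun a b g => by rw [← map_add]; congr 1; ext x; simp)
    (fun a b g => by rw [← map_smul]; congr 1; ext x; simp [smul_comm a])
    (fun a b g => by rw [← map_add]; congr 1; ext x; simp [add_smul])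
    (fun a b g => by rw [← map_smul]; congr 1; ext x; simp [mul_smul])
  have b : ∀ w g, |B w g| ≤ ‖g‖ * ‖w‖ := fun w g => by
    obtain ⟨f, y, a, b⟩ := rone g w
    exact (h _ ⟨_, _, a⟩).trans ((nnle a).trans_eq b)
  refine ⟨B, b, fun T f y k => ?_⟩
  rw [(Summable.of_norm_bounded k.1 fun n => b _ _).hasSum_iff_tendsto_nat,
    tendsto_iff_norm_sub_tendsto_zero]
  refine squeeze_zero (fun _ => norm_nonneg _) (fun M => ?_)
    (tendsto_sum_nat_add fun n => ‖f n‖ * ‖y n‖)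
  have e : ∑ i ∈ Finset.range M, B (y i) (f i) =
      Φ (∑ i ∈ Finset.range M, (f i).smulRight (y i)) := by
    rw [map_sum]; rfl
  rw [norm_sub_rev, e, ← map_sub]
  have r : Rep (T - ∑ i ∈ Finset.range M, (f i).smulRight (y i)) (fun n => f (n + M))
      fun n => y (n + M) := ⟨(summable_nat_add_iff M).2 k.1, fun x => by
    simpa using (hasSum_nat_add_iff' M).2 (k.2 x)⟩
  exact (h _ ⟨_, _, r⟩).trans (nnle r)

theorem trc {T : X →L[ℝ] Y} {f y g z} (h : Rep T f y) (k : Rep T g z) (G : Y →L[ℝ] X) {L : ℝ}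
    (P : ℕ → Y →L[ℝ] Y) (P0 : ∀ N, FiniteDimensional ℝ (LinearMap.range (P N).toLinearMap))
    (P1 : ∀ N w, ‖P N w‖ ≤ L * ‖w‖) (P2 : ∀ w, Tendsto (fun N => P N w) atTop (𝓝 w)) :
    ∑' n, f n (G (y n)) = ∑' n, g n (G (z n)) := by
  have key : ∀ {f y}, Rep T f y → ∀ {ι : ℕ → Type} [∀ N, Fintype (ι N)]
      (ψ : ∀ N, ι N → Y →L[ℝ] ℝ) (x : ∀ N, ι N → Y), (∀ N w, P N w = ∑ i, ψ N i w • P N (x N i)) →
      Tendsto (fun N => ∑ i, ψ N i (T (G (P N (x N i))))) atTop (𝓝 (∑' n, f n (G (y n)))) := by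
    intro f y h ι _ ψ x hx
    refine (tendsto_tsum_of_dominated_convergence (f := fun N n => f n (G (P N (y n))))
      (h.1.mul_left (‖G‖ * L)) (fun n => (((f n).comp G).continuous.tendsto _).comp (P2 _))
      (Eventually.of_forall fun N n => ?_)).congr fun N => HasSum.tsum_eq ?_
    · refine ((f n).le_of_opNorm_le_of_le le_rfl (G.le_of_opNorm_le_of_le le_rfl (P1 N _))).trans
        (le_of_eq (by ring))
    · have := hasSum_sum (s := Finset.univ) fun i _ => (h.2 (G (P N (x N i)))).mapL (ψ N i)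
      refine (congrArg (HasSum · _) (funext fun n => ?_)).mp this
      rw [hx N (y n)]
      simp [mul_comm]
  choose ι _ ψ x hx using fun N => fr (P N) (P0 N)
  exact tendsto_nhds_unique (key h ψ x hx) (key k ψ x hx)

theorem result : ∃ (X Y : Type) (_ : NormedAddCommGroup X) (_ : NormedSpace ℝ X)
    (_ : CompleteSpace X) (_ : NormedAddCommGroup Y) (_ : NormedSpace ℝ Y) (_ : CompleteSpace Y)
    (T : X →L[ℝ] Y), (∃ f y, Rep T f y) ∧ ∃ ε : ℝ, 0 < ε ∧ ∀ S : X →L[ℝ] Y,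
      (∃ f y, Rep S f y ∧ nn S = ∑' n, ‖f n‖ * ‖y n‖) → ε ≤ nn (T - S) := by
  obtain ⟨Z, _, _, _, φ, y, c, h⟩ := spc
  obtain ⟨X, _, _, _, e, e1, sm⟩ := wur h
  obtain ⟨κ, κ0, hκ⟩ := e.toContinuousLinearMap.bound
  obtain ⟨L, L2, L3⟩ : ∃ L : ℝ, 2 ≤ L ∧ 2 * κ * ∑' k, c k ≤ L :=
    ⟨_, le_max_left _ _, le_max_right _ _⟩
  obtain ⟨Y, _, _, _, q, η, l⟩ := lif h L2
  obtain ⟨F, hF⟩ : ∃ F : ℕ → X →L[ℝ] ℝ, ∀ k x, F k x = φ k (e.symm x) :=
    ⟨fun k => (φ k).comp e.symm.toContinuousLinearMap, fun _ _ => rfl⟩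
  have F1 : ∀ k, ‖F k‖ ≤ 1 := fun k => (F k).opNorm_le_bound zero_le_one fun x => by
    rw [hF, one_mul]
    exact (h.f1 k _).trans ((e1 _).trans_eq (by simp))
  have s0 : Summable fun k => ‖c k • F k‖ * ‖η k‖ :=
    Summable.of_nonneg_of_le (fun k => by positivity) (fun k => by
      rw [norm_smul, Real.norm_of_nonneg (h.c0 k)]
      exact (mul_le_of_le_one_right (mul_nonneg (h.c0 k) (norm_nonneg _))
        ((l.e1 k).trans (h.y1 k))).trans (mul_le_of_le_one_right (h.c0 k) (F1 k))) h.cs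
  obtain ⟨T, hT⟩ := nuc _ η s0
  have r0 : Rep T _ η := ⟨s0, hT⟩
  have low : κ⁻¹ ≤ nn T := lenn ⟨_, _, r0⟩ fun f w k => by
    obtain ⟨P, P0, P1, P2⟩ := l.ap
    have a := trc r0 k (e.toContinuousLinearMap.comp q) P P0 P1 P2
    have b : ∀ n, ‖f n (e (q (w n)))‖ ≤ κ * (‖f n‖ * ‖w n‖) := fun n =>
      ((f n).le_of_opNorm_le_of_le le_rfl ((hκ _).trans (mul_le_mul_of_nonneg_left (l.q1 _)
        κ0.le))).trans (le_of_eq (by ring))
    have d := tsum_of_norm_bounded (k.1.mul_left κ).hasSum b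
    simp only [ContinuousLinearMap.comp_apply, ContinuousLinearEquiv.coe_coe, l.qe,
      _root_.smul_apply, hF, e.symm_apply_apply, smul_eq_mul, h.tr] at a
    rw [← a, tsum_mul_left, norm_one] at d
    rwa [inv_le_iff_one_le_mul₀' κ0]
  refine ⟨X, Y, inferInstance, inferInstance, inferInstance, inferInstance, inferInstance,
    inferInstance, T, ⟨_, _, r0⟩, κ⁻¹ / 4, by positivity, ?_⟩
  rintro S ⟨f, w, r1, r2⟩
  have m1 : ∀ (c : ℝ) (T : X →L[ℝ] Y), (∃ f y, Rep T f y) → ∃ f y, Rep (c • T) f y :=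
    fun c _ ⟨_, _, h⟩ => ⟨_, _, (rsm h c).1⟩
  have m2 : ∀ S T : X →L[ℝ] Y, (∃ f y, Rep S f y) → (∃ f y, Rep T f y) → ∃ f y, Rep (S + T) f y :=
    fun _ _ ⟨_, _, h⟩ ⟨_, _, k⟩ => (radd h k).imp fun _ a => a.imp fun _ b => b.1
  obtain ⟨Φ, Φ1, Φ2⟩ := hbp (V := X →L[ℝ] Y) (fun T => ∃ f y, Rep T f y) nn nn0 m1 m2 nsm nadd S
    ⟨_, _, r1⟩
  obtain ⟨B, B1, B2⟩ := bil Φ Φ1
  have t0 : ∃ f y, Rep (T - S) f y := by
    have := m2 _ _ ⟨_, _, r0⟩ (m1 (-1) _ ⟨_, _, r1⟩)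
    rwa [neg_one_smul, ← sub_eq_add_neg] at this
  have t1 := nadd _ _ t0 ⟨_, _, r1⟩
  have t2 := (abs_le.1 (Φ1 _ t0)).1
  rw [sub_add_cancel] at t1
  rw [map_sub, Φ2] at t2
  by_cases z : ∀ n, ‖f n‖ * ‖w n‖ = 0
  · simp only [z, tsum_zero] at r2
    have : 0 < κ⁻¹ := by positivity
    linarith
  push Not at z
  obtain ⟨n, hn⟩ := z
  have eq : B (w n) (f n) = ‖f n‖ * ‖w n‖ := by
    by_contra hc
    have := hasSum_lt (fun n => (le_abs_self _).trans (B1 (w n) (f n)))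
      (lt_of_le_of_ne ((le_abs_self _).trans (B1 (w n) (f n))) hc) (B2 S f w r1)
      r1.1.hasSum
    rw [Φ2, ← r2] at this
    exact lt_irrefl _ this
  have n1 := left_ne_zero_of_mul hn
  have n2 := right_ne_zero_of_mul hn
  obtain ⟨ι, _, ψ, hψ⟩ := l.lf (‖w n‖⁻¹ • w n)
    (by rw [norm_smul, norm_inv, norm_norm, inv_mul_cancel₀ n2])
  obtain ⟨x, hx⟩ := fac (fun i => (ψ i).toLinearMap) B fun v hv => by
    have v1 : ‖(4 * (‖v‖ + 1))⁻¹ • v‖ ≤ 1 / 4 := by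
      rw [norm_smul, norm_inv, Real.norm_of_nonneg (by positivity), inv_mul_le_iff₀ (by positivity)]
      linarith
    have v2 : ∀ i, ψ i ((4 * (‖v‖ + 1))⁻¹ • v) = 0 := fun i => by
      rw [map_smul]; exact smul_eq_zero_of_right _ (hv i)
    have a1 := hψ _ v2 v1
    have a2 := hψ (-((4 * (‖v‖ + 1))⁻¹ • v)) (fun i => by rw [map_neg, v2, neg_zero])
      (by rwa [norm_neg])
    ext g
    have := smo sm (B (‖w n‖⁻¹ • w n)) (B ((4 * (‖v‖ + 1))⁻¹ • v)) (‖f n‖⁻¹ • f n)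
      (by rw [norm_smul, norm_inv, norm_norm]; field_simp)
      (by simp only [map_smul, LinearMap.smul_apply, eq, smul_eq_mul]; field_simp)
      (fun g => by
        rw [← LinearMap.add_apply, ← map_add]
        exact (le_abs_self _).trans ((B1 _ _).trans (mul_le_of_le_one_right (norm_nonneg _) a1)))
      (fun g => by
        rw [← LinearMap.sub_apply, ← map_sub, sub_eq_add_neg]
        exact (le_abs_self _).trans ((B1 _ _).trans (mul_le_of_le_one_right (norm_nonneg _) a2))) g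
    rw [map_smul, LinearMap.smul_apply, smul_eq_mul] at this
    exact (mul_eq_zero.1 this).resolve_left (by positivity)
  have hx' : ∀ k v, ∑ i, c k * B (x i) (F k) * ψ i v = c k * B v (F k) := fun k v => by
    rw [hx v, LinearMap.sum_apply, Finset.mul_sum]
    exact Finset.sum_congr rfl fun i _ => by simp; ring
  have sm := small l (by linarith) ψ (fun i k => c k * B (x i) (F k)) (fun i =>
    bid h F F1 (fun x => by simpa only [hF] using h.sq _) ((B (x i)).mkContinuous ‖x i‖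
      fun g => by rw [mul_comm]; exact B1 _ _)) c h.c0 h.cs (fun k v => by
      rw [hx', abs_mul, abs_of_nonneg (h.c0 k)]
      exact mul_le_mul_of_nonneg_left ((B1 _ _).trans (mul_le_of_le_one_left (norm_nonneg _)
        (F1 k))) (h.c0 k)) (t := Φ T) (by
      simpa only [hx', map_smul, smul_eq_mul] using B2 T _ _ r0)
  have fin : L⁻¹ * ∑' k, c k ≤ κ⁻¹ / 2 := by
    rw [inv_mul_le_iff₀ (by linarith)]
    have := mul_le_mul_of_nonneg_right L3 (by positivity : 0 ≤ κ⁻¹ / 2)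
    refine le_trans (le_of_eq ?_) this
    field_simp
  linarith [le_abs_self (Φ T)]

end Pool.Agent.Results.MP_91e127_an.Main
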